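import Pool.Agent.TH117.GN.Wt
import Pool.Agent.TH117.GN.Defs2
import Pool.Agent.R900.PT.Main

/-!
# Beilinson's conjecture for the higher Chow groups of varieties generated by powers of the
# factors of abelian varieties of dimension at most five

An abelian variety over the field with `p ^ a` elements is modelled by `RedAV` (Honda, Tate): a
finite product of CM types `(E i, Φ i)` with Weil numbers `π i ∈ E i` that satisfy the formula of
Shimura and Taniyama; its cohomology of degree `n`, with coefficients in an algebraically closed field
`Ω`, consists of the alternating `n`-forms on the Tate module `Ω ⊗ H_1`, on which the Frobenius
endomorphism acts by `π`.

We consider (`IsGood`) all abelian varieties `Y` that are isogenous, over an algebraic closure, to a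
product of powers of the factors of an abelian variety `Z'` and of a supersingular abelian variety of any
dimension, where one of the following holds (with any Newton polygons):

* the dimension of `Z'` is at most five, and no two factors of `Z'` form an exceptional pair: two
  non-Galois quartic CM fields with the same Galois closure, or CM fields of degrees 2 and 8, with a
  special relation between the Frobenius eigenvalues (`IsExceptionalPair`);
* the factors of `Z'` (in any number) have dimension at most three, and two factors whose CM fields
  have the same Galois closure are isogenous, unless these fields are Galois over `ℚ` or one of the
  two factors is supersingular.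

For example `Y` may be any power of a simple abelian variety of dimension four or five.

`Homology Ω V` are data of motivic homology `M X n j = H_n^M(X, ℚ(j)) = CH_j(X, n - 2 j) ⊗ ℚ` (higher
Chow groups) and of `ℓ`-adic homology `E X n j = H_n(X, ℚ_ℓ(j))` of schemes `X : V` of finite type over
finite fields, with the Frobenius and the regulator. Let `𝒢` (`Generated`) be the smallest class of
schemes that contains those with the homology groups of the abelian varieties above, that is closed
under direct summands of finite sums of twists of motives, and that contains all of a closed subscheme
`Z` of `X`, `X` and `X ∖ Z` if it contains two of them. For example, it contains all powers, and all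
symmetric powers, of a curve of genus at most five whose Jacobian variety has no exceptional pair of
factors, and the open and the singular varieties that are stratified by such varieties.

**Theorem.**

* For all `X` in `𝒢` and all `n`, `j` the regulator `CH_j(X, n - 2 j) ⊗ Ω → H_n(X, ℚ_ℓ(j)) ⊗ Ω` is
  injective. For a smooth variety `X` of dimension `g`, projective or not, these are the maps `c_X^{i,c}`
  of the question for all `i = 2 g - n` and `c = g - j`.
* The same holds for the complement `U = X ∖ Z` of an **arbitrary** closed subscheme `Z` of dimension
  at most `d` of a scheme `X` in `𝒢`, for all `n` and all `j ≥ d` (for smooth `X`: for the groups
  `CH^c(U, m)` for all `m` and all `c` at most the codimension of `Z`).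

The class is neither larger nor smaller than the ones of the files `FiveAndSurfaces` and `AllCMFields`:
powers of simple abelian varieties of dimension four and five, for instance, are not in the former, and
the exceptions of the latter are not explicit.

Properties of the theory of cycles that are used for the abelian varieties `Y` (`IsChow`,
`IsMotivic`): Poincaré duality, the formal properties of correspondences, the nilpotence of
homologically trivial correspondences (Kimura), the operation of the Frobenius endomorphism on higher
Chow groups, the vanishing of the higher rational `K`-groups of a finite field (Quillen), and the
algebraicity of the classes in `Alg` (theorems of Tate and Markman). That all Tate classes on `Y` are in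
`Alg` was proved in the starting files (helper117); the passage from the Tate conjecture to all degrees
and to the class `𝒢` is due to Soulé, Geisser, Kahn and Jannsen and was formalized there, too
(`tb_good2`, in `Pool/Agent/TH117/GN/Wt.lean`).
-/

set_option autoImplicit false

namespace Pool.Agent.Results.MP_b52861_ag.PowersOfFactors

open Pool.Agent.W495.TA Pool.Agent.W495.FM Pool.Agent.R900.PT Pool.Agent.TH117.GN

/-- Injectivity of the regulators in all degrees for the class generated by the products of powers of
the factors of abelian varieties of dimension at most five (or with factors of dimension at most
three), and for complements of closed subschemes. -/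
theorem result (p : ℕ) [Fact p.Prime] (ν : PadicAlgCl p ≃+* ℂ) (Ω : Type) [Field Ω]
    [IsAlgClosed Ω] [CharZero Ω] (V : Type) (T : Homology Ω V) (hT : IsHomology T) :
    (∀ X : V, Generated T (IsGood p ν T) X → ∀ n j, IsInjectiveAt T X n j) ∧
    ∀ (Z X U : V) (d : ℤ), IsTriple T Z X U → Generated T (IsGood p ν T) X →
      HasDimAtMost T Z d → ∀ n j, d ≤ j → IsInjectiveAt T U n j :=
  ⟨fun _ hX n j => inj_of_tb (tb_good2 hT hX) n j,
    fun _ _ _ _ h hX hZ n _ hj => (reg_opened hT h (tb_good2 hT hX) hZ hj n).2.1⟩

end Pool.Agent.Results.MP_b52861_ag.PowersOfFactors
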